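import Mathlib

set_option autoImplicit false

namespace Pool.Agent.Results.MP_a8a70f_gt.Main

open Set Topology Filter

universe u

/-- The relation collapsing a subset to one point. -/
def rel {Y : Type} (A : Set Y) : Setoid Y where
  r x y := x = y ∨ x ∈ A ∧ y ∈ A
  iseqv := ⟨fun _ => .inl rfl, fun h => h.imp Eq.symm And.symm, fun h k => by
    rcases h with rfl | h
    · exact k
    · rcases k with rfl | k
      exacts [.inr h, .inr ⟨h.1, k.2⟩]⟩

/-- The quotient set. -/
def FMQ {Y : Type} (A : Set Y) : Type := Quotient (rel A)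

/-- The quotient map. -/
def q {Y : Type} (A : Set Y) (y : Y) : FMQ A := Quotient.mk (rel A) y

/-- The density-modified quotient topology. -/
instance {Y : Type} [TopologicalSpace Y] (A : Set Y) : TopologicalSpace (FMQ A) where
  IsOpen U := IsOpen (q A ⁻¹' U) ∧ ((∃ a ∈ A, q A a ∈ U) → Dense (q A ⁻¹' U))
  isOpen_univ := ⟨isOpen_univ, fun _ => dense_univ⟩
  isOpen_inter _ _ s t := ⟨s.1.inter t.1, fun ⟨a, h, k⟩ =>
    (s.2 ⟨a, h, k.1⟩).inter_of_isOpen_left (t.2 ⟨a, h, k.2⟩) s.1⟩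
  isOpen_sUnion _ s := ⟨by rw [preimage_sUnion]; exact isOpen_biUnion fun t h => (s t h).1,
    fun ⟨a, h, t, k, l⟩ => ((s t k).2 ⟨a, h, l⟩).mono (preimage_mono (subset_sUnion_of_mem k))⟩

/-- The remainder of the Cech-Stone compactification of the discrete natural numbers. -/
abbrev Rem : Type := {p : Ultrafilter ℕ // p ∉ range (pure : ℕ → Ultrafilter ℕ)}

section
variable {Y : Type} [TopologicalSpace Y] {A : Set Y}

theorem pre {V : Set Y} (h : Disjoint V A) : q A ⁻¹' (q A '' V) = V :=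
  Subset.antisymm (fun _ ⟨_, a, b⟩ => (Quotient.exact b).elim (· ▸ a)
    fun c => (disjoint_left.1 h a c.1).elim) (subset_preimage_image _ _)

theorem op {V : Set Y} (h : Disjoint V A) (o : IsOpen V) : IsOpen (q A '' V) :=
  ⟨by rwa [pre h], fun ⟨_, a, b⟩ => (disjoint_left.1 h ((pre h).le b) a).elim⟩

theorem cl {N : Set Y} (h : Disjoint N A) (c : IsClosed N) (d : interior N = ∅) :
    IsClosed (q A '' N) := ⟨⟨by rw [preimage_compl, pre h]; exact c.isOpen_compl, fun _ => by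
  rw [preimage_compl, pre h]; exact interior_eq_empty_iff_dense_compl.1 d⟩⟩

theorem key [CompactSpace Y] [T2Space Y] [PerfectSpace Y] (hA : IsClosed A) {K : Type u}
    [TopologicalSpace K] [CompactSpace K] [T2Space K] {f : K → FMQ A} (hf : Continuous f)
    {C : Set Y} (hC : IsClosed C) (d : Disjoint C A) {z : K} (hz : ∃ a ∈ A, f z = q A a) :
    z ∉ closure (f ⁻¹' (q A '' C)) := by
  intro h
  have nz : ∀ N ⊆ C, z ∉ f ⁻¹' (q A '' N) := fun N hN k => by
    obtain ⟨a, a1, a2⟩ := hz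
    rw [mem_preimage, a2] at k
    exact disjoint_left.1 d (hN ((pre (d.mono_left hN)).le k)) a1
  obtain ⟨U, u1, u2⟩ := mem_closure_iff_ultrafilter.1 h
  have g0 : ∀ w, ∃ y, f w = q A y := fun w => (Quotient.exists_rep (f w)).imp fun _ => Eq.symm
  choose g hg using g0
  have g1 : ∀ N, Disjoint N A → ∀ w, w ∈ f ⁻¹' (q A '' N) ↔ g w ∈ N := fun N hN w => by
    rw [mem_preimage, hg, ← mem_preimage, pre hN]
  obtain ⟨y, -, hy⟩ := isCompact_univ.ultrafilter_le_nhds (U.map g) (by simp)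
  obtain ⟨S, s1, s2⟩ := zorn_subset {S : Set (Set Y) | (∀ V ∈ S, IsOpen V ∧ y ∉ closure V) ∧
      S.PairwiseDisjoint id} fun c hc hcc => ⟨⋃₀ c, ⟨fun V ⟨t, a, b⟩ => (hc a).1 V b,
    (pairwiseDisjoint_sUnion hcc.directedOn).2 fun t a => (hc a).2⟩,
    fun _ => subset_sUnion_of_mem⟩
  have s3 : Dense (⋃₀ S) := dense_iff_inter_open.2 fun O o1 o2 => by_contra fun c => by
    obtain ⟨x, x1, x2⟩ : ∃ x ∈ O, x ≠ y := by
      obtain ⟨x, x1⟩ := o2
      obtain ⟨w, w1, w2⟩ := (infinite_of_mem_nhds x (o1.mem_nhds x1)).exists_notMem_finite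
        (finite_singleton y)
      exact ⟨w, w1, w2⟩
    obtain ⟨T, t1, t2, t3⟩ := exists_mem_nhds_isClosed_subset
      ((o1.inter isOpen_ne).mem_nhds ⟨x1, x2⟩)
    have b : ∀ V ∈ S, Disjoint (interior T) V := fun V v => disjoint_left.2 fun w w1 w2 =>
      c ⟨w, (t3 (interior_subset w1)).1, V, v, w2⟩
    have := s2 (y := insert (interior T) S) ⟨fun V v => v.elim (fun e => e ▸ ⟨isOpen_interior,
      fun k => (t3 (closure_minimal interior_subset t2 k)).2 rfl⟩) (s1.1 V),
      s1.2.insert fun V v _ => b V v⟩ (subset_insert _ _) (mem_insert _ _)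
    exact disjoint_left.1 (b _ this) (mem_interior_iff_mem_nhds.2 t1)
      (mem_interior_iff_mem_nhds.2 t1)
  have n1 : IsClosed (f ⁻¹' (q A '' (C \ ⋃₀ S))) := (cl (d.mono_left diff_subset)
    (hC.sdiff (isOpen_sUnion fun V v => (s1.1 V v).1)) (eq_empty_of_subset_empty
      ((interior_mono fun _ k => k.2).trans_eq s3.interior_compl))).preimage hf
  obtain ⟨G, G1, G2, G3⟩ := exists_mem_nhds_isClosed_subset
    (n1.isOpen_compl.mem_nhds (nz _ diff_subset))
  have G4 : ∀ w ∈ G, g w ∈ C → g w ∈ ⋃₀ S := fun w w1 w2 => by_contra fun c =>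
    G3 w1 ((g1 _ (d.mono_left diff_subset) w).2 ⟨w2, c⟩)
  let T := {V ∈ S | ∃ w, w ∈ G ∧ g w ∈ C ∧ g w ∈ V}
  by_cases hT : T.Finite
  · obtain ⟨V, v1, v2⟩ := (Ultrafilter.finite_biUnion_mem_iff (f := U)
      (s := fun V => g ⁻¹' V) hT).1 (mem_of_superset (inter_mem (u2 G1) u1) fun w k => by
        obtain ⟨V, v1, v2⟩ := G4 w k.1 ((g1 C d w).1 k.2)
        exact mem_biUnion (show V ∈ T from ⟨v1, w, k.1, (g1 C d w).1 k.2, v2⟩) v2)
    exact (s1.1 V v1.1).2 (mem_closure_iff_ultrafilter.2 ⟨U.map g, v2, hy⟩)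
  have : Infinite T := infinite_coe_iff.2 hT
  choose w w1 w2 w3 using fun V : T => V.2.2
  have w4 : ∀ (V : T) (W : Set Y), W ∈ S → g (w V) ∈ W → V.1 = W := fun V W a b =>
    s1.2.elim V.2.1 a (not_disjoint_iff.2 ⟨_, w3 V, b⟩)
  have m : closure (range fun V => g (w V)) ⊆ C := closure_minimal (range_subset_iff.2 w2) hC
  have n2 : IsClosed (f ⁻¹' (q A '' closure (range fun V => g (w V)))) :=
    (cl (d.mono_left m) isClosed_closure (eq_empty_of_forall_notMem fun x x1 => by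
      obtain ⟨p, p1, W, p2, p3⟩ := s3.inter_open_nonempty _ isOpen_interior ⟨x, x1⟩
      have o := isOpen_interior.inter (s1.1 W p2).1 (s := interior (closure
        (range fun V => g (w V))))
      have b : (W ∩ range fun V => g (w V)).Finite := Set.Subsingleton.finite (by
        rintro _ ⟨a, V, rfl⟩ _ ⟨a', V', rfl⟩
        rw [Subtype.ext ((w4 V W p2 a).trans (w4 V' W p2 a').symm)])
      exact infinite_of_mem_nhds p (o.mem_nhds ⟨p1, p3⟩) (b.subset fun t k =>
        b.isClosed.closure_subset ((s1.1 W p2).1.inter_closure ⟨k.2, interior_subset k.1⟩)))).preimage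
      hf
  obtain ⟨x, x1, x2⟩ := (G2.inter n2).isCompact.exists_mapClusterPt (f := cofinite) (u := w)
    (tendsto_principal.2 (Eventually.of_forall fun V => ⟨w1 V, (g1 _ (d.mono_left m) _).2
      (subset_closure ⟨V, rfl⟩)⟩))
  have x3 := m ((g1 _ (d.mono_left m) x).1 x1.2)
  obtain ⟨W, p2, p3⟩ := G4 x x1.1 x3
  have d' : Disjoint (W \ A) A := disjoint_sdiff_left
  have := x2.frequently (((op d' ((s1.1 W p2).1.sdiff hA)).preimage hf).mem_nhds
    ((g1 _ d' x).2 ⟨p3, disjoint_left.1 d x3⟩))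
  exact frequently_cofinite_iff_infinite.1 this (Set.Subsingleton.finite fun V a V' a' =>
    Subtype.ext ((w4 V W p2 ((g1 _ d' _).1 a).1).trans (w4 V' W p2 ((g1 _ d' _).1 a').1).symm))

theorem main [CompactSpace Y] [T2Space Y] [PerfectSpace Y] (hA : IsClosed A) {K : Type u}
    [TopologicalSpace K] [CompactSpace K] [T2Space K] {f : K → FMQ A} (hf : Continuous f) :
    IsClosed {p : K × K | f p.1 = f p.2} := by
  have k : ∀ a b x y, f a = q A x → f b = q A y → y ∉ A → x ≠ y →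
      ∃ U ∈ 𝓝 a, ∃ V ∈ 𝓝 b, ∀ s ∈ U, ∀ t ∈ V, f s ≠ f t := fun a b x y a1 b1 y1 h => by
    obtain ⟨C, c1, c2, c3⟩ := exists_mem_nhds_isClosed_subset
      ((hA.isOpen_compl.inter isOpen_ne).mem_nhds ⟨y1, h.symm⟩)
    have d : Disjoint C A := disjoint_left.2 fun t k => (c3 k).1
    refine ⟨(f ⁻¹' (q A '' C))ᶜ, ?_, f ⁻¹' (q A '' interior C), ((op (d.mono_left interior_subset)
      isOpen_interior).preimage hf).mem_nhds ⟨y, mem_interior_iff_mem_nhds.2 c1, b1.symm⟩,
      fun s s1 t t1 e => s1 (by rw [mem_preimage, e]; exact image_mono interior_subset t1)⟩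
    by_cases x1 : x ∈ A
    · exact mem_interior_iff_mem_nhds.1 (interior_compl.ge (key hA hf c2 d ⟨x, x1, a1⟩))
    · refine mem_of_superset (((op (V := Cᶜ \ A) disjoint_sdiff_left
        (c2.isOpen_compl.sdiff hA)).preimage hf).mem_nhds ⟨x, ⟨fun k => (c3 k).2 rfl, x1⟩, a1.symm⟩)
        fun s ⟨t, t1, t2⟩ k => t1.1 ((pre d).le ?_)
      rwa [mem_preimage, t2]
  refine isOpen_compl_iff.1 (isOpen_iff_mem_nhds.2 fun ⟨a, b⟩ h => ?_)
  obtain ⟨x, hx⟩ := Quotient.exists_rep (f a)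
  obtain ⟨y, hy⟩ := Quotient.exists_rep (f b)
  have n : ¬ (x = y ∨ x ∈ A ∧ y ∈ A) := fun e =>
    h (hx.symm.trans ((Quotient.sound (s := rel A) e).trans hy))
  by_cases y1 : y ∈ A
  · obtain ⟨U, u, V, v, e⟩ := k b a y x hy.symm hx.symm (fun c => n (.inr ⟨c, y1⟩))
      fun c => n (.inl c.symm)
    exact mem_of_superset (prod_mem_nhds v u) fun p c => (e _ c.2 _ c.1).symm
  · obtain ⟨U, u, V, v, e⟩ := k a b x y hx.symm hy.symm y1 fun c => n (.inl c)
    exact mem_of_superset (prod_mem_nhds u v) fun p c => e _ c.1 _ c.2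

end

theorem result (A : Set Rem) (hA : A.Finite) (K : Type u) [TopologicalSpace K] [CompactSpace K]
    [T2Space K] (f : K → FMQ A) (hf : Continuous f) : IsClosed {p : K × K | f p.1 = f p.2} := by
  have : CompactSpace Rem := isCompact_iff_compactSpace.1 (IsClosed.isCompact (isOpen_compl_iff.1 (by
    convert isOpen_iUnion fun n : ℕ => ultrafilter_isOpen_basic {n}
    ext p
    simp only [mem_compl_iff, mem_iUnion, mem_setOf_eq]
    exact not_not.trans (exists_congr fun n => ⟨fun e => e ▸ rfl,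
      fun e => (Ultrafilter.eq_of_le (le_pure_iff.2 e)).symm⟩))))
  have : PerfectSpace Rem := perfectSpace_iff_forall_not_isolated.2 fun p => by
    refine ⟨fun e => ?_⟩
    obtain ⟨U, u1, u2⟩ := (mem_nhds_induced _ _ _).1
      ((isOpen_singleton_iff_punctured_nhds p).2 e |>.mem_nhds rfl)
    obtain ⟨_, ⟨s, rfl⟩, s1, s2⟩ := ultrafilterBasis_is_basis.mem_nhds_iff.1 u1
    have i : s.Infinite := fun c => by
      obtain ⟨n, -, e⟩ := Ultrafilter.eq_pure_of_finite_mem c s1
      exact p.2 ⟨n, e.symm⟩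
    have k : ∀ j : ℕ, (hyperfilter ℕ).map (fun n => (i.natEmbedding s (2 * n + j)).1) = p.1 :=
      fun j => congrArg Subtype.val (u2 (a := ⟨(hyperfilter ℕ).map
          fun n => (i.natEmbedding s (2 * n + j)).1, fun ⟨n, e⟩ => by
        have b : {n} ∈ (hyperfilter ℕ).map fun n => (i.natEmbedding s (2 * n + j)).1 := e ▸ rfl
        refine Set.Finite.notMem_hyperfilter ((finite_singleton n).preimage fun a _ b _ c => ?_) b
        have := (i.natEmbedding s).injective (Subtype.ext c)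
        omega⟩) (s2 ((Ultrafilter.mem_map (f := hyperfilter ℕ)).2
          (univ_mem' fun n => (i.natEmbedding s _).2))))
    have b : range (fun n => (i.natEmbedding s (2 * n + 0)).1) ∈ (hyperfilter ℕ).map
      fun n => (i.natEmbedding s (2 * n + 1)).1 := by
      rw [k 1, ← k 0]
      exact Ultrafilter.mem_map.2 (univ_mem' mem_range_self)
    obtain ⟨n, m, c⟩ := Ultrafilter.nonempty_of_mem (Ultrafilter.mem_map.1 b)
    have := (i.natEmbedding s).injective (Subtype.ext c)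
    omega
  exact main hA.isClosed hf

end Pool.Agent.Results.MP_a8a70f_gt.Main
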